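import Pool.Agent.Q59.RL.Tate2
import Pool.Agent.Q59.PL.Odds

/-!
# Tate characters in characteristics of odd order and the unions of their Frobenius conjugates
-/

namespace Pool.Agent.Q59.OT

open Finset Pool.Agent.H916R2 Pool.Agent.Q59.FS Pool.Agent.Q59.RL
open Pool.Agent.H916T (IsTate SurfaceTate Standard W)
open Pool.Agent.Q59.PL (wq)

variable {p : ℕ} {A : ∀ M : ℕ, Multiset (ZMod M) → Prop} {m : ℕ} [NeZero m]

/-- the union of the Frobenius conjugates -/
noncomputable def fr (p : ℕ) {m : ℕ} (s : Multiset (ZMod m)) : Multiset (ZMod m) :=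
  ∑ j ∈ range (orderOf (p : ZMod m)), s.map fun a => (p : ZMod m) ^ j * a

omit [NeZero m] in
lemma mem_fr {s : Multiset (ZMod m)} {b : ZMod m} :
    b ∈ fr p s ↔ ∃ j ∈ range (orderOf (p : ZMod m)), ∃ a ∈ s, (p : ZMod m) ^ j * a = b := by
  unfold fr
  rw [Multiset.mem_sum]
  simp only [Multiset.mem_map]

omit [NeZero m] in
lemma card_fr (s : Multiset (ZMod m)) :
    Multiset.card (fr p s) = orderOf (p : ZMod m) * Multiset.card s := by
  unfold fr
  rw [Multiset.card_sum]
  simp

omit [NeZero m] in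
lemma map_fr_sum {Q : Type*} [AddCommMonoid Q] (c : ZMod m → Q) (s : Multiset (ZMod m)) :
    ((fr p s).map c).sum = ∑ j ∈ range (orderOf (p : ZMod m)),
      (s.map fun a => c ((p : ZMod m) ^ j * a)).sum := by
  unfold fr
  generalize range (orderOf (p : ZMod m)) = S
  induction S using Finset.induction_on with
  | empty => simp
  | insert j S hj ih =>
    rw [sum_insert hj, sum_insert hj, Multiset.map_add, Multiset.sum_add, ih, Multiset.map_map]
    rfl

omit [NeZero m] in
lemma fr_hodge (hpm : p.Coprime m) {s : Multiset (ZMod m)} (hs : IsTate p m s) :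
    IsHodge m (fr p s) := by
  have hu := Pool.Agent.H916T.isUnit_p hpm
  refine ⟨?_, ?_, ?_, fun t => ?_⟩
  · intro h
    obtain ⟨j, -, a, ha, h0⟩ := mem_fr.mp h
    exact hs.1 (((hu.pow j).mul_right_eq_zero.mp h0) ▸ ha)
  · rw [card_fr]; exact hs.2.1.mul_left _
  · have h1 := map_fr_sum (p := p) (id : ZMod m → ZMod m) s
    rw [Multiset.map_id] at h1
    rw [h1]
    refine sum_eq_zero fun j _ => ?_
    simp only [id]
    rw [Multiset.sum_map_mul_left, Multiset.map_id', hs.2.2.1, mul_zero]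
  · rw [map_fr_sum (p := p) (fun a => ((t : ZMod m) * a).val) s, card_fr]
    have h1 := hs.2.2.2 t
    have h2 : ∀ j ∈ range (orderOf (p : ZMod m)),
        (s.map fun a => ((t : ZMod m) * ((p : ZMod m) ^ j * a)).val).sum =
          (s.map fun a => ((p : ZMod m) ^ j * ((t : ZMod m) * a)).val).sum := fun j _ => by
      congr 1
      refine Multiset.map_congr rfl fun a _ => ?_
      rw [mul_left_comm]
    rw [sum_congr rfl h2, h1]
    ring

lemma wq_fr (hpm : p.Coprime m) (q : ℕ) (s : Multiset (ZMod m)) :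
    wq q (fr p s) = orderOf (p : ZMod m) * wq q s := by
  have hu := Pool.Agent.H916T.isUnit_p hpm
  unfold wq
  rw [map_fr_sum]
  have h1 : ∀ j ∈ range (orderOf (p : ZMod m)),
      (s.map fun a => if q ∣ addOrderOf ((p : ZMod m) ^ j * a) then
        wo (addOrderOf ((p : ZMod m) ^ j * a)) else 0).sum =
      (s.map fun a => if q ∣ addOrderOf a then wo (addOrderOf a) else 0).sum := fun j _ => by
    congr 1
    refine Multiset.map_congr rfl fun a _ => ?_
    have h2 := order_unit_mul (hu.pow j).unit a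
    rw [IsUnit.unit_spec] at h2
    rw [h2]
  rw [sum_congr rfl h1, sum_const, card_range, nsmul_eq_mul]

/-- **The criterion.** -/
theorem iff_fr (hA : AdmT p A) (hp : p.Prime) (hpm : p.Coprime m) (hm : 2 ≤ m)
    (hf : Odd (orderOf (p : ZMod m))) {s : Multiset (ZMod m)} (hs : IsTate p m s) :
    A m s ↔ A m (fr p s) := by
  have hH := fr_hodge hpm hs
  have hT : ct (A m) s ∈ TA p (A m) := (mem_TA hpm).mpr ⟨s, hs, rfl⟩
  have h2 := TA_two hA hp hpm hm hT
  have key : ct (A m) (fr p s) = ct (A m) s := by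
    have e1 : ((fr p s).map (cQ m (A m))).sum = (s.map (cQ m (A m))).sum := by
      rw [map_fr_sum, sum_congr rfl fun j _ => cls_frob_pow hA hp hpm hm hs.1 hs.2.2.1 j, sum_const,
        card_range]
      have h3 : (s.map (cQ m (A m))).sum + (s.map (cQ m (A m))).sum = 0 :=
        congrArg (fun x : (((ZMod m → ℤ) ⧸ LL m (A m)) × ZMod 2) × ZMod m => x.1.1) h2
      obtain ⟨g, hg⟩ := hf
      rw [hg, add_smul, one_smul, mul_comm, mul_smul, two_nsmul, h3, smul_zero, zero_add]
    have e2 : ((Multiset.card (fr p s) : ℕ) : ZMod 2) = ((Multiset.card s : ℕ) : ZMod 2) := by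
      have h4 : ∀ t : Multiset (ZMod m), Even (Multiset.card t) →
          ((Multiset.card t : ℕ) : ZMod 2) = 0 := fun t ht => by
        rw [ZMod.natCast_eq_zero_iff, ← even_iff_two_dvd]; exact ht
      rw [h4 _ hH.2.1, h4 _ hs.2.1]
    have e3 : (fr p s).sum = s.sum := by rw [hH.2.2.1, hs.2.2.1]
    exact Prod.ext (Prod.ext e1 e2) e3
  rw [← ct_eq_zero_iff hA hpm hm hs.1, ← ct_eq_zero_iff hA hpm hm hH.1, key]

end Pool.Agent.Q59.OT
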